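import Pool.Agent.Helper36.SPR.St

/-!
# Project SPR, module PF: orthogonality formula for `prb`
-/

set_option autoImplicit false

namespace Pool.Agent.Helper62.SPR

open Finset
open Pool.Agent.Helper36.SPR

lemma addChar_sum {A M ι : Type} [AddCommMonoid A] [CommMonoid M] (ψ : AddChar A M)
    (s : Finset ι) (f : ι → A) : ψ (∑ i ∈ s, f i) = ∏ i ∈ s, ψ (f i) := by
  classical
  induction s using Finset.induction_on with
  | empty => simp
  | insert a s ha ih => rw [Finset.sum_insert ha, Finset.prod_insert ha,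
      AddChar.map_add_eq_mul, ih]

/-- the character sum over a word -/
lemma sum_word (n T k : ℕ) [NeZero n] (a : ZMod n) :
    ∑ v : Fin k → Fin T, ZMod.stdAddChar (a * (1 + ∑ i, (2 : ZMod n) ^ (v i : ℕ)))
      = ZMod.stdAddChar a * (∑ i ∈ range T, ZMod.stdAddChar (a * 2 ^ i)) ^ k := by
  have h1 : ∀ v : Fin k → Fin T,
      ZMod.stdAddChar (a * (1 + ∑ i, (2 : ZMod n) ^ (v i : ℕ)))
        = ZMod.stdAddChar a * ∏ i, ZMod.stdAddChar (a * 2 ^ (v i : ℕ)) := by
    intro v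
    rw [mul_add, mul_one, AddChar.map_add_eq_mul, Finset.mul_sum, addChar_sum]
  rw [Finset.sum_congr rfl (fun v _ => h1 v), ← Finset.mul_sum]
  congr 1
  have h2 := (Finset.prod_univ_sum (fun _ : Fin k => (Finset.univ : Finset (Fin T)))
    (fun (_ : Fin k) (t : Fin T) => ZMod.stdAddChar (a * 2 ^ (t : ℕ))))
  rw [Fintype.piFinset_univ] at h2
  rw [← h2, Finset.prod_const, Finset.card_univ, Fintype.card_fin]
  congr 1
  exact (Finset.sum_range (fun i => ZMod.stdAddChar (a * 2 ^ i))).symm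

lemma prb_eq (n T k : ℕ) [NeZero n] (hT : 0 < T) :
    (prb n T k : ℂ) = (∑ a : ZMod n, ZMod.stdAddChar a * mu n T a ^ k) / n := by
  have hn : (n : ℂ) ≠ 0 := by exact_mod_cast NeZero.ne n
  have hTc : (T : ℂ) ≠ 0 := by exact_mod_cast hT.ne'
  have h0 : ∀ v : Fin k → Fin T,
      (∑ a : ZMod n, ZMod.stdAddChar (a * (1 + ∑ i, (2 : ZMod n) ^ (v i : ℕ)))) =
        if (1 + ∑ i, (2 : ZMod n) ^ (v i : ℕ) = 0) then (n : ℂ) else 0 := by
    intro v
    rw [AddChar.sum_mulShift _ (ZMod.isPrimitive_stdAddChar n)]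
    simp [ZMod.card]
  have h1 : (((Finset.univ : Finset (Fin k → Fin T)).filter
      (fun v => 1 + ∑ i, (2 : ZMod n) ^ (v i : ℕ) = 0)).card : ℂ) * n
      = ∑ a : ZMod n, ZMod.stdAddChar a * (∑ i ∈ range T, ZMod.stdAddChar (a * 2 ^ i)) ^ k := by
    rw [← Finset.sum_congr rfl (fun a _ => sum_word n T k a), Finset.sum_comm,
      Finset.sum_congr rfl (fun v _ => h0 v), Finset.card_filter, Nat.cast_sum, Finset.sum_mul]
    refine Finset.sum_congr rfl (fun v _ => ?_)
    split_ifs <;> simp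
  have h2 : (prb n T k : ℂ) = (((Finset.univ : Finset (Fin k → Fin T)).filter
      (fun v => 1 + ∑ i, (2 : ZMod n) ^ (v i : ℕ) = 0)).card : ℂ) / (T : ℂ) ^ k := by
    unfold prb
    push_cast
    rfl
  have h3 : (∑ a : ZMod n, ZMod.stdAddChar a * mu n T a ^ k)
      = (∑ a : ZMod n, ZMod.stdAddChar a *
          (∑ i ∈ range T, ZMod.stdAddChar (a * 2 ^ i)) ^ k) / (T : ℂ) ^ k := by
    rw [Finset.sum_div]
    refine Finset.sum_congr rfl (fun a _ => ?_)
    unfold mu
    rw [div_pow, mul_div_assoc]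
  rw [h2, h3, ← h1]
  field_simp

theorem hPF : StPF := by
  intro n T k _ hT
  have hn : (n : ℂ) ≠ 0 := by exact_mod_cast NeZero.ne n
  have hTc : (T : ℂ) ≠ 0 := by exact_mod_cast hT.ne'
  refine ⟨prb_eq n T k hT, ?_⟩
  have h0 : mu n T 0 = 1 := by
    unfold mu
    simp only [zero_mul, AddChar.map_zero_eq_one, Finset.sum_const, Finset.card_range,
      nsmul_eq_mul, mul_one]
    exact div_self hTc
  have h1 : (∑ a : ZMod n, ZMod.stdAddChar a * mu n T a ^ k)
      = 1 + ∑ a ∈ Finset.univ.erase (0 : ZMod n), ZMod.stdAddChar a * mu n T a ^ k := by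
    rw [← Finset.add_sum_erase _ _ (Finset.mem_univ (0 : ZMod n))]
    rw [h0]
    simp
  have h2 : ((prb n T k - 1 / n : ℝ) : ℂ)
      = (∑ a ∈ Finset.univ.erase (0 : ZMod n), ZMod.stdAddChar a * mu n T a ^ k) / n := by
    push_cast
    rw [prb_eq n T k hT, h1]
    ring
  have h3 : |prb n T k - 1 / n|
      = ‖∑ a ∈ Finset.univ.erase (0 : ZMod n), ZMod.stdAddChar a * mu n T a ^ k‖ / n := by
    rw [← Real.norm_eq_abs, ← Complex.norm_real, h2, norm_div, Complex.norm_natCast]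
  rw [h3]
  refine div_le_div_of_nonneg_right ?_ (Nat.cast_nonneg n)
  refine (norm_sum_le _ _).trans ?_
  rw [← Finset.add_sum_erase _ _ (Finset.mem_univ (0 : ZMod n))]
  rw [if_pos rfl, zero_add]
  refine Finset.sum_le_sum (fun a ha => ?_)
  rw [if_neg (Finset.ne_of_mem_erase ha), norm_mul, norm_pow]
  have : ‖(ZMod.stdAddChar a : ℂ)‖ = 1 := by
    simp
  rw [this, one_mul]

end Pool.Agent.Helper62.SPR
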